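import Mathlib
import Pool.Agent.Helper98.Lang.Defs

/-!
# MP_c307ca_nt, packet P16: the Nair-Tenenbaum theorem for Hooley's function
-/

set_option autoImplicit false

open Finset

namespace Pool.Agent.Helper61.Lang

open Pool.Agent.Helper98.Lang

theorem exp_neg_sum_le (S : Finset ℕ) (hS : ∀ s ∈ S, 1 ≤ s) :
    ∑ s ∈ S, Real.exp (-(s : ℝ)) ≤ 1 := by
  have h1 : ∀ N : ℕ, ∑ s ∈ Icc 1 N, Real.exp (-(s : ℝ)) ≤ 1 - Real.exp (-(N : ℝ)) := by
    intro N
    induction N with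
    | zero => simp
    | succ N ih =>
      rw [Finset.sum_Icc_succ_top (by omega)]
      have h2 : Real.exp (-((N : ℝ))) = Real.exp 1 * Real.exp (-((N + 1 : ℕ) : ℝ)) := by
        rw [← Real.exp_add]; congr 1; push_cast; ring
      have h3 : (2 : ℝ) ≤ Real.exp 1 := by
        have := Real.add_one_le_exp (1 : ℝ); linarith
      have h4 : 0 < Real.exp (-((N + 1 : ℕ) : ℝ)) := Real.exp_pos _
      nlinarith
  obtain ⟨N, hN⟩ : ∃ N : ℕ, ∀ s ∈ S, s ≤ N := ⟨S.sup id, fun s hs => Finset.le_sup (f := id) hs⟩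
  calc ∑ s ∈ S, Real.exp (-(s : ℝ)) ≤ ∑ s ∈ Icc 1 N, Real.exp (-(s : ℝ)) :=
        Finset.sum_le_sum_of_subset_of_nonneg
          (fun s hs => Finset.mem_Icc.2 ⟨hS s hs, hN s hs⟩) (fun _ _ _ => (Real.exp_pos _).le)
    _ ≤ 1 - Real.exp (-(N : ℝ)) := h1 N
    _ ≤ 1 := by have := Real.exp_pos (-(N : ℝ)); linarith

theorem sum_union_le' (s t : Finset ℕ) (f : ℕ → ℝ) (hf : ∀ n, 0 ≤ f n) :
    ∑ n ∈ s ∪ t, f n ≤ ∑ n ∈ s, f n + ∑ n ∈ t, f n := by
  have h := Finset.sum_union_inter (s₁ := s) (s₂ := t) (f := f)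
  have h2 : 0 ≤ ∑ n ∈ s ∩ t, f n := Finset.sum_nonneg fun n _ => hf n
  linarith

theorem sum_biUnion_le' (S : Finset ℕ) (T : ℕ → Finset ℕ) (f : ℕ → ℝ) (hf : ∀ n, 0 ≤ f n) :
    ∑ n ∈ S.biUnion T, f n ≤ ∑ s ∈ S, ∑ n ∈ T s, f n := by
  induction S using Finset.induction_on with
  | empty => simp
  | insert a S ha ih =>
    rw [Finset.biUnion_insert, Finset.sum_insert ha]
    exact (sum_union_le' _ _ f hf).trans (by linarith)

theorem exists_z1 (A : ℕ) : ∃ z1 : ℕ, ∀ z : ℕ, z1 ≤ z →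
    (Nat.log 2 z : ℝ) * 2 ^ A ≤ (z : ℝ) ^ ((1 : ℝ) / 2) := by
  have h1 := isLittleO_log_rpow_atTop (r := (1 : ℝ) / 2) (by norm_num)
  have hc : (0 : ℝ) < Real.log 2 / 2 ^ A := div_pos (Real.log_pos (by norm_num)) (by positivity)
  have h2 := h1.def hc
  obtain ⟨x0, hx0⟩ := Filter.eventually_atTop.1 h2
  refine ⟨max (Nat.ceil x0) 1, fun z hz => ?_⟩
  have hz1 : 1 ≤ z := le_trans (le_max_right _ _) hz
  have hzx : x0 ≤ z := (Nat.le_ceil x0).trans (by exact_mod_cast le_trans (le_max_left _ _) hz)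
  have h3 := hx0 z hzx
  have hz1' : (1 : ℝ) ≤ z := by exact_mod_cast hz1
  rw [Real.norm_of_nonneg (Real.log_nonneg hz1'), Real.norm_of_nonneg (by positivity)] at h3
  have h4 : (Nat.log 2 z : ℝ) ≤ Real.log z / Real.log 2 := by
    have := Real.natLog_le_logb z 2
    simpa [Real.logb] using this
  have hl2 : 0 < Real.log 2 := Real.log_pos (by norm_num)
  have h5 : (Nat.log 2 z : ℝ) * Real.log 2 ≤ Real.log z := by
    rwa [le_div_iff₀ hl2] at h4
  have h6 : (Nat.log 2 z : ℝ) * Real.log 2 ≤ Real.log 2 / 2 ^ A * (z : ℝ) ^ ((1 : ℝ) / 2) :=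
    h5.trans h3
  have h7 : (Nat.log 2 z : ℝ) * Real.log 2 * 2 ^ A ≤ Real.log 2 * (z : ℝ) ^ ((1 : ℝ) / 2) := by
    calc (Nat.log 2 z : ℝ) * Real.log 2 * 2 ^ A
        ≤ (Real.log 2 / 2 ^ A * (z : ℝ) ^ ((1 : ℝ) / 2)) * 2 ^ A := by gcongr
      _ = Real.log 2 * (z : ℝ) ^ ((1 : ℝ) / 2) := by field_simp
  have h8 : Real.log 2 * ((Nat.log 2 z : ℝ) * 2 ^ A) ≤ Real.log 2 * (z : ℝ) ^ ((1 : ℝ) / 2) := by
    linarith
  exact le_of_mul_le_mul_left h8 hl2

open Classical in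
theorem nt : GPref → GDDM → GCls → GSm → GNT := by
  intro hP hD hC hS A η hη
  obtain ⟨C1, y0, hC1, hy0, hCl⟩ := hC A η hη
  obtain ⟨C2, hC2, hSm⟩ := hS A y0
  obtain ⟨z1, hz1⟩ := exists_z1 A
  refine ⟨4 + C1 + 2 * C2, max (max y0 3) z1, by positivity, ?_⟩
  intro z X g Y E hz hX hL hg3 hY4 hE4
  have hzy : y0 ≤ z := le_trans (le_trans (le_max_left _ _) (le_max_left _ _)) hz
  have hz3 : 3 ≤ z := le_trans (le_trans (le_max_right _ _) (le_max_left _ _)) hz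
  have hzz1 : z1 ≤ z := le_trans (le_max_right _ _) hz
  have hz3' : (3 : ℝ) ≤ z := by exact_mod_cast hz3
  have hg0 := hL.1
  have hY0 := hL.2.1
  have hE0 := hL.2.2.1
  have hlog1 : 1 ≤ Real.log z := by
    rw [← Real.log_exp 1]
    apply Real.log_le_log (Real.exp_pos 1)
    have := Real.exp_one_lt_d9
    linarith
  have hlogη : 1 ≤ Real.log z ^ η := Real.one_le_rpow hlog1 hη.le
  have h4A : 4 ^ A ≤ y0 := le_trans (Nat.pow_le_pow_right (by norm_num) (by omega)) hy0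
  have h2y : 2 ≤ y0 := by
    have : 4 ^ 2 ≤ 4 ^ (A + 2) := Nat.pow_le_pow_right (by norm_num) (by omega)
    omega
  set S : Finset ℕ := (Icc 1 (Nat.log 2 z)).filter (fun s => y0 ^ s ≤ z) with hSdef
  -- the three pieces
  set T1 : Finset ℕ := (Icc 1 X).filter (fun n => n ≤ z) with hT1
  set T2 : ℕ → Finset ℕ := fun s => (Icc 1 X).filter (fun n => Cls z s n) with hT2
  set T3 : Finset ℕ := (Icc 1 X).filter
    (fun n => ∃ b r : ℕ, n = b * r ∧ b ≤ z ∧ Smooth y0 b ∧ z < b * y0) with hT3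
  have hf0 : ∀ n, 0 ≤ g n * DD n := fun n => mul_nonneg (hg0 n) (by positivity)
  have hcover : Icc 1 X ⊆ T1 ∪ (S.biUnion T2 ∪ T3) := by
    intro n hn
    rw [mem_union, mem_union]
    by_cases hnz : n ≤ z
    · left; exact mem_filter.2 ⟨hn, hnz⟩
    · right
      push Not at hnz
      obtain ⟨b, r, p, s, hbr, hb1, hbz, hp, hpr, hmin, hsm, hzb, hs1, hzs, hor⟩ :=
        hP z n (by omega) hnz
      by_cases hys : y0 ^ s ≤ z
      · left
        rw [mem_biUnion]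
        refine ⟨s, ?_, ?_⟩
        · rw [hSdef, mem_filter, mem_Icc]
          refine ⟨⟨hs1, ?_⟩, hys⟩
          apply Nat.le_log_of_pow_le (by norm_num)
          exact (Nat.pow_le_pow_left h2y s).trans hys
        · exact mem_filter.2 ⟨hn, b, r, p, hbr, hb1, hbz, hp, hpr, hmin, hsm, hzb, hzs, hor⟩
      · right
        push Not at hys
        have hs1' : s ≠ 1 := by
          rintro rfl
          rw [pow_one] at hys
          omega
        have hps : p ^ s ≤ z := hor.resolve_left hs1'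
        have hpy : p < y0 := by
          by_contra hcon
          push Not at hcon
          exact absurd ((Nat.pow_le_pow_left hcon s).trans hps) (by omega)
        refine mem_filter.2 ⟨hn, b, r, hbr, hbz, ?_, ?_⟩
        · intro q hq hqb
          exact (hsm q hq hqb).trans hpy.le
        · exact lt_of_lt_of_le hzb (Nat.mul_le_mul_left b hpy.le)
  have hsum : ∑ n ∈ Icc 1 X, g n * DD n ≤ ∑ n ∈ T1, g n * DD n +
      (∑ s ∈ S, ∑ n ∈ T2 s, g n * DD n + ∑ n ∈ T3, g n * DD n) := by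
    calc ∑ n ∈ Icc 1 X, g n * DD n ≤ ∑ n ∈ T1 ∪ (S.biUnion T2 ∪ T3), g n * DD n :=
          Finset.sum_le_sum_of_subset_of_nonneg hcover (fun n _ _ => hf0 n)
      _ ≤ ∑ n ∈ T1, g n * DD n + ∑ n ∈ S.biUnion T2 ∪ T3, g n * DD n :=
          sum_union_le' _ _ _ hf0
      _ ≤ ∑ n ∈ T1, g n * DD n + (∑ n ∈ S.biUnion T2, g n * DD n + ∑ n ∈ T3, g n * DD n) := by
          gcongr
          exact sum_union_le' _ _ _ hf0
      _ ≤ _ := by
          gcongr
          exact sum_biUnion_le' _ _ _ hf0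
  -- piece 1
  have hp1 : ∑ n ∈ T1, g n * DD n ≤ 3 * Y := by
    have h1 : ∀ n ∈ T1, g n * DD n ≤ 3 * z := by
      intro n hn
      have hnz : n ≤ z := (mem_filter.1 hn).2
      have hDn : DD n ≤ z := (hD.2.2 n).trans ((Nat.card_divisors_le_self n).trans hnz)
      have hDn' : (DD n : ℝ) ≤ z := by exact_mod_cast hDn
      exact mul_le_mul (hg3 n) hDn' (by positivity) (by norm_num)
    have h2 : T1.card ≤ z := by
      have : T1 ⊆ Icc 1 z := fun n hn => by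
        have h := mem_filter.1 hn
        exact mem_Icc.2 ⟨(mem_Icc.1 h.1).1, h.2⟩
      simpa using Finset.card_le_card this
    calc ∑ n ∈ T1, g n * DD n ≤ T1.card • (3 * (z : ℝ)) := Finset.sum_le_card_nsmul _ _ _ h1
      _ = (T1.card : ℝ) * (3 * z) := by rw [nsmul_eq_mul]
      _ ≤ (z : ℝ) * (3 * z) := by
          gcongr
      _ = 3 * (z : ℝ) ^ 2 := by ring
      _ ≤ 3 * (z : ℝ) ^ 4 := by
          have : (z : ℝ) ^ 2 ≤ (z : ℝ) ^ 4 := pow_le_pow_right₀ (by linarith) (by norm_num)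
          linarith
      _ ≤ 3 * Y := by linarith
  -- piece 2
  have hp2 : ∑ s ∈ S, ∑ n ∈ T2 s, g n * DD n ≤ C1 * Y * Real.log z ^ η + Y := by
    have h1 : ∀ s ∈ S, ∑ n ∈ T2 s, g n * DD n ≤
        C1 * Y * Real.log z ^ η * Real.exp (-(s : ℝ)) +
          2 ^ A * (z : ℝ) ^ ((1 : ℝ) / 2) * ((z : ℝ) ^ 3 * E) := by
      intro s hs
      have hs' := mem_filter.1 hs
      have hs1 : 1 ≤ s := (mem_Icc.1 hs'.1).1
      have h2 := hCl z X s g Y E hX hL hs1 hs'.2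
      refine h2.trans ?_
      have h3 : ((2 : ℝ) ^ (A * s)) ≤ (z : ℝ) ^ ((1 : ℝ) / 2) := by
        rw [← Real.sqrt_eq_rpow]
        apply Real.le_sqrt_of_sq_le
        have h4 : (2 ^ (A * s)) ^ 2 ≤ z := by
          calc (2 ^ (A * s)) ^ 2 = (4 ^ A) ^ s := by
                rw [← pow_mul, ← pow_mul, show (4 : ℕ) = 2 ^ 2 by norm_num, ← pow_mul]
                congr 1; ring
            _ ≤ y0 ^ s := Nat.pow_le_pow_left h4A s
            _ ≤ z := hs'.2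
        exact_mod_cast h4
      have h5 : (2 : ℝ) ^ (A * (s + 1)) ≤ 2 ^ A * (z : ℝ) ^ ((1 : ℝ) / 2) := by
        rw [mul_add, mul_one, pow_add, mul_comm]
        gcongr
      have h6 : (2 : ℝ) ^ (A * (s + 1)) * (z : ℝ) ^ 3 * E ≤
          2 ^ A * (z : ℝ) ^ ((1 : ℝ) / 2) * ((z : ℝ) ^ 3 * E) := by
        rw [mul_assoc]
        gcongr
      have h7 : C1 * Real.exp (-(s : ℝ)) * Y * Real.log z ^ η =
        C1 * Y * Real.log z ^ η * Real.exp (-(s : ℝ)) := by ring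
      rw [h7]
      linarith
    have hSc : (S.card : ℝ) ≤ Nat.log 2 z := by
      have : S.card ≤ (Icc 1 (Nat.log 2 z)).card := Finset.card_filter_le _ _
      rw [Nat.card_Icc] at this
      exact_mod_cast (by omega : S.card ≤ Nat.log 2 z)
    have hC0 : 0 ≤ C1 * Y * Real.log z ^ η := by positivity
    have hexp := exp_neg_sum_le S (fun s hs => (mem_Icc.1 (mem_filter.1 hs).1).1)
    calc ∑ s ∈ S, ∑ n ∈ T2 s, g n * DD n
        ≤ ∑ s ∈ S, (C1 * Y * Real.log z ^ η * Real.exp (-(s : ℝ)) +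
          2 ^ A * (z : ℝ) ^ ((1 : ℝ) / 2) * ((z : ℝ) ^ 3 * E)) := Finset.sum_le_sum h1
      _ = C1 * Y * Real.log z ^ η * ∑ s ∈ S, Real.exp (-(s : ℝ)) +
          S.card * (2 ^ A * (z : ℝ) ^ ((1 : ℝ) / 2) * ((z : ℝ) ^ 3 * E)) := by
          rw [Finset.sum_add_distrib, ← Finset.mul_sum, Finset.sum_const, nsmul_eq_mul]
      _ ≤ C1 * Y * Real.log z ^ η * 1 +
          Nat.log 2 z * (2 ^ A * (z : ℝ) ^ ((1 : ℝ) / 2) * ((z : ℝ) ^ 3 * E)) := by
          gcongr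
      _ = C1 * Y * Real.log z ^ η +
          (Nat.log 2 z * 2 ^ A) * ((z : ℝ) ^ ((1 : ℝ) / 2) * ((z : ℝ) ^ 3 * E)) := by ring
      _ ≤ C1 * Y * Real.log z ^ η +
          (z : ℝ) ^ ((1 : ℝ) / 2) * ((z : ℝ) ^ ((1 : ℝ) / 2) * ((z : ℝ) ^ 3 * E)) := by
          gcongr
          exact hz1 z hzz1
      _ = C1 * Y * Real.log z ^ η + (z : ℝ) ^ 4 * E := by
          have : (z : ℝ) ^ ((1 : ℝ) / 2) * (z : ℝ) ^ ((1 : ℝ) / 2) = z := by
            rw [← Real.rpow_add (by linarith)]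
            norm_num
          calc C1 * Y * Real.log z ^ η +
              (z : ℝ) ^ ((1 : ℝ) / 2) * ((z : ℝ) ^ ((1 : ℝ) / 2) * ((z : ℝ) ^ 3 * E))
              = C1 * Y * Real.log z ^ η +
                ((z : ℝ) ^ ((1 : ℝ) / 2) * (z : ℝ) ^ ((1 : ℝ) / 2)) * ((z : ℝ) ^ 3 * E) := by ring
            _ = _ := by rw [this]; ring
      _ ≤ C1 * Y * Real.log z ^ η + Y := by linarith
  -- piece 3
  have hp3 : ∑ n ∈ T3, g n * DD n ≤ 2 * C2 * Y := by
    have h1 := hSm z X g Y E (by omega) hX hL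
    refine h1.trans ?_
    have h2 : (z : ℝ) ^ (-(1 : ℝ) / 4) ≤ 1 :=
      Real.rpow_le_one_of_one_le_of_nonpos (by linarith) (by norm_num)
    have h3 : E * z ≤ Y := by
      have h4 : (z : ℝ) ≤ (z : ℝ) ^ 4 := by
        calc (z : ℝ) = (z : ℝ) ^ 1 := (pow_one _).symm
          _ ≤ (z : ℝ) ^ 4 := pow_le_pow_right₀ (by linarith) (by norm_num)
      calc E * z ≤ E * (z : ℝ) ^ 4 := by gcongr
        _ = (z : ℝ) ^ 4 * E := by ring
        _ ≤ Y := hE4
    have h4 : C2 * Y * (z : ℝ) ^ (-(1 : ℝ) / 4) ≤ C2 * Y * 1 := by gcongr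
    have h5 : C2 * E * z ≤ C2 * Y := by
      rw [mul_assoc]; gcongr
    linarith
  have hfin : ∑ n ∈ Icc 1 X, g n * DD n ≤
      3 * Y + ((C1 * Y * Real.log z ^ η + Y) + 2 * C2 * Y) := by
    refine hsum.trans ?_
    gcongr
  refine hfin.trans ?_
  have h1 : (4 + 2 * C2) * Y * 1 ≤ (4 + 2 * C2) * Y * Real.log z ^ η := by gcongr
  linarith

end Pool.Agent.Helper61.Lang

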